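import Mathlib
import Pool.Agent.Run7.h683.AB.M8

set_option autoImplicit false

/-!
# The digits of `e`, `π` and `√2` in a random base

A base `b` is chosen at random from `1, …, B`. The digits of `e` (or of `π`, or of `√2`, or of several
numbers at once) at the places `2, …, K + 1` are then, up to an error `exp (-√(log B))`, independent
and uniformly distributed on the scale `1 / q`, as long as `K ≤ (log B) ^ δ` and
`q ≤ exp ((log B) ^ δ)`.
-/

namespace Pool.Agent.Results.MP_7e9a3a_nt.AlmostAllBases

open Filter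

/-- the digit at the place `j ≥ 1` after the point in the base `b` expansion of `y` -/
noncomputable def digit (b : ℕ) (y : ℝ) (j : ℕ) : ℕ := (⌊y * (b : ℝ) ^ j⌋ % (b : ℤ)).toNat

/-- the possible digits `0, …, b - 1` are divided into `q` classes of consecutive digits, numbered
`0, …, q - 1`: the digit `u` is in the class `w` when `w b / q ≤ u < (w + 1) b / q` -/
def part (q b u : ℕ) : ℕ := q * u / b

/-- `x` is algebraic over the ring `ℤ[z]`, equivalently over the field `ℚ(z)` -/
def AlgebraicOver (z x : ℝ) : Prop := IsAlgebraic (Algebra.adjoin ℤ ({z} : Set ℝ)) x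

/-- the height of an integer polynomial: the largest absolute value of a coefficient -/
def height (P : Polynomial ℤ) : ℕ := P.support.sup fun i => (P.coeff i).natAbs

/-- Mahler's U-numbers: for some degree `d` and every exponent `w` there are infinitely many
`P ∈ ℤ[X]` of degree at most `d` with `0 < |P(x)| ≤ (height P) ^ (-w)` -/
def UNumber (x : ℝ) : Prop :=
  ∃ d : ℕ, ∀ w : ℕ, {P : Polynomial ℤ | P.natDegree ≤ d ∧ 0 < |Polynomial.aeval x P| ∧
    |Polynomial.aeval x P| * (height P : ℝ) ^ w ≤ 1}.Infinite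

/-- `z` is `e`, or `π`, or the logarithm of a positive rational number `q ≠ 1`, or any transcendental
real number which is not a U-number -/
def Admissible (z : ℝ) : Prop :=
  z = Real.exp 1 ∨ z = Real.pi ∨ (∃ q : ℚ, 0 < q ∧ q ≠ 1 ∧ z = Real.log q) ∨
    (Transcendental ℚ z ∧ ¬ UNumber z)

/-- the numbers `x 0, …, x (r - 1)` are algebraic over `ℚ(z)` and together with `1` linearly
independent over `ℚ` -/
def Family (z : ℝ) {r : ℕ} (x : Fin r → ℝ) : Prop :=
  (∀ i, AlgebraicOver z (x i)) ∧
    ∀ (m : ℤ) (g : Fin r → ℤ), (m : ℝ) + ∑ i, (g i : ℝ) * x i = 0 → g = 0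

/-- the number of the bases `b` with `1 ≤ b ≤ B` in the set `S` -/
noncomputable def count (B : ℕ) (S : Set ℕ) : ℕ := {b : ℕ | 0 < b ∧ b ≤ B ∧ b ∈ S}.ncard

/-- the bases `b` for which the classes of the digits of the numbers `x i` at the places
`2, …, K + 1` form an array `w` in the set `A` -/
def event {r K q : ℕ} (x : Fin r → ℝ) (A : Set (Fin r → Fin K → Fin q)) : Set ℕ :=
  {b | ∃ w ∈ A, ∀ (i : Fin r) (j : Fin K), part q b (digit b (x i) ((j : ℕ) + 2)) = w i j}

/-- the number of the places `s + 2` with `s < K` at which, in base `b`, the classes of the digits of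
the numbers `x i` spell the word `v`: the class of the digit of `x i` at the place `s + 2 + t` is
`v i t` for all `i` and `t < L` -/
noncomputable def occurrences {r L q : ℕ} (x : Fin r → ℝ) (b K : ℕ) (v : Fin r → Fin L → Fin q) :
    ℕ :=
  {s : ℕ | s < K ∧ ∀ (i : Fin r) (t : Fin L),
    part q b (digit b (x i) (s + (t : ℕ) + 2)) = v i t}.ncard

/-- There is `δ > 0` such that for all real numbers `x 0, …, x (r - 1)` which are algebraic over
`ℚ(z)`, `z` admissible (for instance `z = e` or `z = π`), and linearly independent over `ℚ` together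
with `1`, the following holds.

(1) For all large `B`, all `K ≤ (log B) ^ δ`, `q ≤ exp ((log B) ^ δ)` and every set `A` of `r × K` arrays of
classes: the proportion of the bases `b ≤ B` whose array of classes of the digits at the places `2, …, K + 1` is
in `A` differs from `|A| / q ^ (r K)` by at most `exp (-√(log B))`.

(2) For all `q`, `L` and `ε > 0` there is `K₀` such that for all large `B` and for all but at most
`ε B` bases `b ≤ B`: for every `K` with `K₀ ≤ K ≤ (log B) ^ δ` every word `v` of length `L` has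
frequency `q ^ (-r L)` up to an error of at most `ε` among the first `K` places from the second on.

(3) The numbers `z, z², …, z ^ k, √2` are such a family. -/
theorem result :
    (∃ δ : ℝ, 0 < δ ∧ ∀ z : ℝ, Admissible z → ∀ (r : ℕ) (x : Fin r → ℝ), Family z x →
      (∀ᶠ B : ℕ in atTop, ∀ K q : ℕ, 1 ≤ q → (K : ℝ) ≤ Real.log B ^ δ →
        (q : ℝ) ≤ Real.exp (Real.log B ^ δ) → ∀ A : Set (Fin r → Fin K → Fin q),
          |(count B (event x A) : ℝ) / B - (A.ncard : ℝ) / (q : ℝ) ^ (r * K)| ≤
            Real.exp (-Real.sqrt (Real.log B))) ∧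
      (∀ q L : ℕ, 1 ≤ q → ∀ ε : ℝ, 0 < ε → ∃ K₀ : ℕ, ∀ᶠ B : ℕ in atTop,
        (count B {b | ∃ (v : Fin r → Fin L → Fin q) (K : ℕ), K₀ ≤ K ∧ (K : ℝ) ≤ Real.log B ^ δ ∧
          ε * K < |(occurrences x b K v : ℝ) - K / (q : ℝ) ^ (r * L)|} : ℝ) ≤ ε * B)) ∧
    (∀ z : ℝ, Admissible z → ∀ k : ℕ,
      Family z (Fin.snoc (fun i : Fin k => z ^ ((i : ℕ) + 1)) (Real.sqrt 2) : Fin (k + 1) → ℝ)) := by
  refine ⟨?_, fun z hz k => Run7.h683.AB.powers_sqrt
    (Run7.h683.AB.transc_of_mt (Run7.h683.AB.mt_cases hz)) k⟩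
  obtain ⟨δ, hδ, h⟩ := Run7.h683.AB.random_of_meas
  refine ⟨δ, hδ, fun z hz r x hx => ?_⟩
  have h1 := h r x (Run7.h683.AB.meas_alg (Run7.h683.AB.mt_cases hz) x hx.1 hx.2)
  exact h1

end Pool.Agent.Results.MP_7e9a3a_nt.AlmostAllBases
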