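import Mathlib
import Pool.Agent.Run7.h566.ML.Alg

/-!
The first digits of the numbers `a_0 ⋯ a_n ξ + x_0(a) + ⋯ + x_n(a)`, where `ξ` is an irrational
algebraic number and the `x_j` are arbitrary real functions of the tuple `a` which do not depend on
`a_j`.

Proof. The moments of the digit sums are expanded. By the subspace theorem the numbers
`h ξ ∑_j ± b ^ (i_j)` have no good rational approximations with denominators up to a small power of
`M`, unless the sum vanishes, and the multilinear exponential sums are bounded by the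
Cauchy–Schwarz inequality, applied once for each variable but one.
-/

set_option autoImplicit false

open Finset
open scoped Classical

namespace Pool.Agent.Results.MP_7e9a3a_nt.MultilinearDiscrepancy

/-- for every `n ≤ N` the number of `i` with `1 ≤ i ≤ n` such that the fractional part of `z b^i` lies
in `[α, β)` differs from `(β - α) n` by at most `E`, for all intervals `[α, β) ⊆ [0, 1)` -/
def DiscrepancyUpTo (b N : ℕ) (E z : ℝ) : Prop :=
  ∀ n : ℕ, n ≤ N → ∀ α β : ℝ, 0 ≤ α → α < β → β ≤ 1 →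
    |(({i : ℕ | 1 ≤ i ∧ i ≤ n ∧ α ≤ Int.fract (z * (b : ℝ) ^ i) ∧
      Int.fract (z * (b : ℝ) ^ i) < β}.ncard : ℕ) : ℝ) - (β - α) * n| ≤ E

/-- the function `F` of `d`-tuples does not depend on the coordinate `j` -/
def Free {d : ℕ} {X : Type} (j : Fin d) (F : (Fin d → ℕ) → X) : Prop :=
  ∀ a a' : Fin d → ℕ, (∀ i, i ≠ j → a i = a' i) → F a = F a'

/-- the number `a_0 ⋯ a_(d-1) ξ + x_0(a) + ⋯ + x_(d-1)(a)` -/
noncomputable def value {d : ℕ} (ξ : ℝ) (x : Fin d → (Fin d → ℕ) → ℝ) (a : Fin d → ℕ) : ℝ :=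
  (∏ i, (a i : ℝ)) * ξ + ∑ j, x j a

/-- the tuples of integers below `M` which satisfy all the relations `Ω_j` -/
noncomputable def tuples {d : ℕ} (M : ℕ) (Ω : Fin d → (Fin d → ℕ) → Prop) : Finset (Fin d → ℕ) :=
  (Fintype.piFinset fun _ => range M).filter fun a => ∀ j, Ω j a

lemma mem_tuples {d : ℕ} (M : ℕ) (Ω : Fin d → (Fin d → ℕ) → Prop) (a : Fin d → ℕ) :
    a ∈ tuples M Ω ↔ (∀ i, a i < M) ∧ ∀ j, Ω j a := by
  unfold tuples
  rw [mem_filter, Fintype.mem_piFinset]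
  simp only [mem_range]

lemma general (ξ : ℝ) (halg : IsAlgebraic ℚ ξ) (hirr : Irrational ξ) (B n A : ℕ) (ε δ : ℝ)
    (hε : 0 < ε) (hδ : 0 < δ) :
    ∃ c : ℝ, 0 < c ∧ ∃ N₀ : ℕ, ∀ N : ℕ, N₀ ≤ N → ∀ M : ℕ, Real.exp (ε * N) ≤ M →
      ∀ x : Fin (n + 1) → (Fin (n + 1) → ℕ) → ℝ, (∀ j, Free j (x j)) →
      ∀ Ω : Fin (n + 1) → (Fin (n + 1) → ℕ) → Prop, (∀ j, Free j (Ω j)) →
      (M : ℝ) ^ ((n : ℝ) + 1 - c) ≤ (tuples M Ω).card →
      (((tuples M Ω).filter fun a => ¬ ∀ b : ℕ, 2 ≤ b → b ≤ B →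
        DiscrepancyUpTo b N ((N : ℝ) ^ (1 / 2 + δ)) (value ξ x a)).card : ℝ) ≤
          (tuples M Ω).card / (N : ℝ) ^ A := by
  have hdef : ∀ (N : ℕ) (z : ℝ), Pool.Agent.Run7.h566.DP.Gd (Icc 2 B) N δ z ↔
      ∀ b : ℕ, 2 ≤ b → b ≤ B → DiscrepancyUpTo b N ((N : ℝ) ^ (1 / 2 + δ)) z := by
    intro N z
    unfold DiscrepancyUpTo Pool.Agent.Run7.h566.DP.Gd
    simp only [mem_Icc, and_imp]
    refine forall_congr' fun b => imp_congr_right fun _ => imp_congr_right fun _ =>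
      forall_congr' fun n => imp_congr_right fun _ => forall_congr' fun α =>
      forall_congr' fun β => imp_congr_right fun _ => imp_congr_right fun _ =>
        imp_congr_right fun _ => ?_
    rw [← Set.ncard_coe_finset]
    have : {i : ℕ | 1 ≤ i ∧ i ≤ n ∧ α ≤ Int.fract (z * (b : ℝ) ^ i) ∧
        Int.fract (z * (b : ℝ) ^ i) < β} = (((Icc 1 n).filter (fun i : ℕ =>
        α ≤ Int.fract (z * (b : ℝ) ^ i) ∧ Int.fract (z * (b : ℝ) ^ i) < β) : Finset ℕ) : Set ℕ) := by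
      ext i
      simp [and_assoc]
    rw [this]
  obtain ⟨c, hc, N₀, h⟩ := Pool.Agent.Run7.h566.ML.multi_digits ξ halg hirr n (Icc 2 B)
    (fun b hb => (mem_Icc.1 hb).1) ε δ hε hδ A
  refine ⟨c, hc, max N₀ 1, fun N hN M hM x hx Ω hΩ hcard => ?_⟩
  have hN1 : (1 : ℝ) ≤ N := by exact_mod_cast (le_max_right _ _).trans hN
  have h1 := h N ((le_max_left _ _).trans hN) M hM x hx Ω hΩ hcard
  rw [le_div_iff₀ (by positivity)]
  refine le_trans (le_of_eq ?_) h1
  congr 3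
  refine filter_congr fun a _ => ?_
  rw [hdef]
  rfl

/-- Let `ξ` be an irrational algebraic number (for instance `√2`), `B, n, A ≥ 0`, `ε, δ > 0`.

(1) There are `c > 0` and `N₀` such that for all `N ≥ N₀`, all `M ≥ exp (ε N)`, ALL real functions `x_j`
and ALL relations `Ω_j` on the tuples `a = (a_0, …, a_n)` of nonnegative integers such that `x_j` and
`Ω_j` do not depend on `a_j` (`j = 0, …, n`): if the number `R` of the tuples of integers below `M` which
satisfy all the relations is at least `M ^ (n + 1 - c)`, then for all but at most `R / N ^ A` of these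
tuples the number `a_0 ⋯ a_n ξ + x_0(a) + ⋯ + x_n(a)` has in all bases `b ≤ B` the discrepancy (not
normalized) at most `N ^ (1 / 2 + δ)` up to the `m`-th digit, for all `m ≤ N`.

(2) In particular there are `c > 0` and `N₀` such that for all `N ≥ N₀`, all `M ≥ exp (ε N)`, ALL sets
`S, T` of integers below `M` with `|S| |T| ≥ M ^ (2 - c)` (for instance the set of the primes) and ALL
real functions `x, y`, for all but at most `|S| |T| / N ^ A` of the pairs `(s, t)` in `S × T` the number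
`s t ξ + x(s) + y(t)` has this property. -/
theorem result (ξ : ℝ) (halg : IsAlgebraic ℚ ξ) (hirr : Irrational ξ) (B n A : ℕ) (ε δ : ℝ)
    (hε : 0 < ε) (hδ : 0 < δ) :
    (∃ c : ℝ, 0 < c ∧ ∃ N₀ : ℕ, ∀ N : ℕ, N₀ ≤ N → ∀ M : ℕ, Real.exp (ε * N) ≤ M →
      ∀ x : Fin (n + 1) → (Fin (n + 1) → ℕ) → ℝ, (∀ j, Free j (x j)) →
      ∀ Ω : Fin (n + 1) → (Fin (n + 1) → ℕ) → Prop, (∀ j, Free j (Ω j)) →
      (M : ℝ) ^ ((n : ℝ) + 1 - c) ≤ (tuples M Ω).card →
      (((tuples M Ω).filter fun a => ¬ ∀ b : ℕ, 2 ≤ b → b ≤ B →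
        DiscrepancyUpTo b N ((N : ℝ) ^ (1 / 2 + δ)) (value ξ x a)).card : ℝ) ≤
          (tuples M Ω).card / (N : ℝ) ^ A) ∧
    (∃ c : ℝ, 0 < c ∧ ∃ N₀ : ℕ, ∀ N : ℕ, N₀ ≤ N → ∀ M : ℕ, Real.exp (ε * N) ≤ M →
      ∀ S T : Finset ℕ, S ⊆ range M → T ⊆ range M → (M : ℝ) ^ (2 - c) ≤ (S.card : ℝ) * T.card →
      ∀ x y : ℕ → ℝ,
      (((S ×ˢ T).filter fun z : ℕ × ℕ => ¬ ∀ b : ℕ, 2 ≤ b → b ≤ B →
        DiscrepancyUpTo b N ((N : ℝ) ^ (1 / 2 + δ)) ((z.1 * z.2 : ℝ) * ξ + x z.1 + y z.2)).card : ℝ) ≤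
          (S.card : ℝ) * T.card / (N : ℝ) ^ A) := by
  refine ⟨general ξ halg hirr B n A ε δ hε hδ, ?_⟩
  obtain ⟨c, hc, N₀, h⟩ := general ξ halg hirr B 1 A ε δ hε hδ
  refine ⟨c, hc, N₀, fun N hN M hM S T hS hT hcard x y => ?_⟩
  set X : Fin 2 → (Fin 2 → ℕ) → ℝ := fun j a => if j = 0 then y (a 1) else x (a 0) with hX
  set W : Fin 2 → (Fin 2 → ℕ) → Prop := fun j a => if j = 0 then a 1 ∈ T else a 0 ∈ S with hW
  have hXf : ∀ j, Free j (X j) := by
    intro j a a' haa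
    fin_cases j
    · have h1 := haa 1 (by decide)
      simp [hX, h1]
    · have h1 := haa 0 (by decide)
      simp [hX, h1]
  have hWf : ∀ j, Free j (W j) := by
    intro j a a' haa
    fin_cases j
    · have h1 := haa 1 (by decide)
      simp [hW, h1]
    · have h1 := haa 0 (by decide)
      simp [hW, h1]
  have hmem : ∀ a : Fin 2 → ℕ, a ∈ tuples M W ↔ (a 0, a 1) ∈ S ×ˢ T := by
    intro a
    rw [mem_tuples, Fin.forall_fin_two, Fin.forall_fin_two, mem_product]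
    simp only [hW, if_true, one_ne_zero, if_false]
    constructor
    · rintro ⟨_, h1, h2⟩
      exact ⟨h2, h1⟩
    · rintro ⟨h1, h2⟩
      exact ⟨⟨mem_range.1 (hS h1), mem_range.1 (hT h2)⟩, h2, h1⟩
  have himg : ∀ p : (Fin 2 → ℕ) → Prop, ∀ r : ℕ × ℕ → Prop, (∀ a, p a ↔ r (a 0, a 1)) →
      ((tuples M W).filter p).card = ((S ×ˢ T).filter r).card := by
    intro p r hpr
    refine card_nbij' (fun a => (a 0, a 1)) (fun z => ![z.1, z.2]) ?_ ?_ ?_ ?_
    · intro a ha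
      rw [mem_coe, mem_filter] at ha ⊢
      exact ⟨(hmem a).1 ha.1, (hpr a).1 ha.2⟩
    · intro z hz
      rw [mem_coe, mem_filter] at hz ⊢
      refine ⟨(hmem _).2 ?_, (hpr _).2 ?_⟩
      · simpa using hz.1
      · simpa using hz.2
    · intro a _
      funext i
      fin_cases i <;> rfl
    · intro z _
      rfl
  have hcardeq : (tuples M W).card = (S ×ˢ T).card := by
    have h1 := himg (fun _ => True) (fun _ => True) (fun _ => Iff.rfl)
    simpa using h1
  have hcardR : ((tuples M W).card : ℝ) = (S.card : ℝ) * T.card := by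
    rw [hcardeq, card_product]
    push_cast
    rfl
  have h1 := h N hN M hM X hXf W hWf (by
    rw [hcardR]
    refine le_trans (le_of_eq ?_) hcard
    congr 1
    push_cast
    ring)
  rw [hcardR] at h1
  refine le_trans (le_of_eq ?_) h1
  have h2 := himg (fun a => ¬ ∀ b : ℕ, 2 ≤ b → b ≤ B →
      DiscrepancyUpTo b N ((N : ℝ) ^ (1 / 2 + δ)) (value ξ X a))
    (fun z : ℕ × ℕ => ¬ ∀ b : ℕ, 2 ≤ b → b ≤ B →
      DiscrepancyUpTo b N ((N : ℝ) ^ (1 / 2 + δ)) ((z.1 * z.2 : ℝ) * ξ + x z.1 + y z.2))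
    (fun a => by
      have e1 : value ξ X a = ((a 0 : ℝ) * a 1) * ξ + x (a 0) + y (a 1) := by
        unfold value
        rw [Fin.prod_univ_two, Fin.sum_univ_two]
        simp only [hX, if_true, one_ne_zero, if_false]
        ring
      rw [e1])
  refine congrArg _ ?_
  convert h2.symm

end Pool.Agent.Results.MP_7e9a3a_nt.MultilinearDiscrepancy
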