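import Pool.Agent.Run7.h566.DP.PolyR
import Pool.Agent.Run7.h566.DP.PrimeR

/-!
# The digits of the values of a polynomial at integers, and of the prime multiples of an algebraic
irrational number

The proofs are in `Pool/Agent/Run7/h566/DP/PolyR.lean` and `Pool/Agent/Run7/h566/DP/PrimeR.lean`. The
`2s`-th moments of `∑_{i ≤ n} e(h z b ^ i)` over the family of the numbers `z` are expanded; the
subspace theorem with Weyl's inequality, respectively with Vinogradov's bound for the sums over the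
primes, bounds the sums with the frequencies `h ∑_j ± b ^ (i_j) ≠ 0`.
-/

set_option autoImplicit false

namespace Pool.Agent.Results.MP_7e9a3a_nt.PolynomialAndPrimeValues

open Finset Polynomial

/-- for every `n ≤ N` the number of `i` with `1 ≤ i ≤ n` such that the fractional part of `z b^i` lies
in `[α, β)` differs from `(β - α) n` by at most `E`, for all intervals `[α, β) ⊆ [0, 1)` -/
def DiscrepancyUpTo (b N : ℕ) (E z : ℝ) : Prop :=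
  ∀ n : ℕ, n ≤ N → ∀ α β : ℝ, 0 ≤ α → α < β → β ≤ 1 →
    |(({i : ℕ | 1 ≤ i ∧ i ≤ n ∧ α ≤ Int.fract (z * (b : ℝ) ^ i) ∧
      Int.fract (z * (b : ℝ) ^ i) < β}.ncard : ℕ) : ℝ) - (β - α) * n| ≤ E

/-- Let `B ≥ 2`, `ε, δ > 0` and `A` be arbitrary. A number is called good (for `N`) if it has in all bases
`b ≤ B` the discrepancy (not normalized) at most `N ^ (1 / 2 + δ)` up to the `n`-th digit, for all
`n ≤ N`.
(1) Let `ξ` be an irrational algebraic number, `k, Q ≥ 1`. For all large `N` and all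
`M ≥ exp (ε N)`, all real polynomials `G` of degree `k` with leading coefficient `ξ` and all integral
polynomials `P`: for all but `M / N ^ A` of the `m < M` the number `G(m) + P(m) / Q` is good.
(2) Let `F` be a real polynomial with algebraic coefficients. Either all the coefficients of
`F - F(0)` are rational, or for all large `N` and all `M ≥ exp (ε N)` all but `M / N ^ A` of the
numbers `F(m)`, `m < M`, are good.
(3) For all real `x, y` and for all large `N` and all `M ≥ exp (ε N)` all but `M / N ^ A` of the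
numbers `√2 m ^ 2 + x m + y`, `m < M`, are good.
(4) Let `ξ` be an irrational algebraic number. For all large `N`, for all real `y` and all
`M ≥ exp (ε N)`: for all primes `p ≤ M`, but at most `π(M) / N ^ A` of them, the number `y + p ξ` is
good.
(5) For all large `N` there is a prime `p ≤ exp (ε N)` such that `p ξ` is good. -/
theorem result (B : ℕ) (ε δ : ℝ) (hε : 0 < ε) (hδ : 0 < δ) (A : ℕ) :
    (∀ ξ : ℝ, IsAlgebraic ℚ ξ → Irrational ξ → ∀ k Q : ℕ, 1 ≤ k → 1 ≤ Q →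
      ∃ N₀ : ℕ, ∀ N : ℕ, N₀ ≤ N → ∀ M : ℕ, Real.exp (ε * N) ≤ M →
      ∀ (G : ℝ[X]) (P : ℤ[X]), G.natDegree = k → G.leadingCoeff = ξ →
      (({m : ℕ | m < M ∧ ¬ ∀ b : ℕ, 2 ≤ b → b ≤ B → DiscrepancyUpTo b N ((N : ℝ) ^ (1 / 2 + δ))
        (G.eval (m : ℝ) + ((P.eval (m : ℤ) : ℤ) : ℝ) / Q)}.ncard : ℕ) : ℝ) ≤ M / (N : ℝ) ^ A) ∧
    (∀ F : ℝ[X], (∀ i, IsAlgebraic ℚ (F.coeff i)) →
      (∀ i, 1 ≤ i → ∃ r : ℚ, F.coeff i = r) ∨
      ∃ N₀ : ℕ, ∀ N : ℕ, N₀ ≤ N → ∀ M : ℕ, Real.exp (ε * N) ≤ M →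
      (({m : ℕ | m < M ∧ ¬ ∀ b : ℕ, 2 ≤ b → b ≤ B → DiscrepancyUpTo b N ((N : ℝ) ^ (1 / 2 + δ))
        (F.eval (m : ℝ))}.ncard : ℕ) : ℝ) ≤ M / (N : ℝ) ^ A) ∧
    (∀ x y : ℝ, ∃ N₀ : ℕ, ∀ N : ℕ, N₀ ≤ N → ∀ M : ℕ, Real.exp (ε * N) ≤ M →
      (({m : ℕ | m < M ∧ ¬ ∀ b : ℕ, 2 ≤ b → b ≤ B → DiscrepancyUpTo b N ((N : ℝ) ^ (1 / 2 + δ))
        (√2 * (m : ℝ) ^ 2 + x * m + y)}.ncard : ℕ) : ℝ) ≤ M / (N : ℝ) ^ A) ∧
    (∀ ξ : ℝ, IsAlgebraic ℚ ξ → Irrational ξ →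
      ∃ N₀ : ℕ, ∀ N : ℕ, N₀ ≤ N → ∀ (y : ℝ) (M : ℕ), Real.exp (ε * N) ≤ M →
      (({p : ℕ | p.Prime ∧ p ≤ M ∧ ¬ ∀ b : ℕ, 2 ≤ b → b ≤ B →
        DiscrepancyUpTo b N ((N : ℝ) ^ (1 / 2 + δ)) (y + p * ξ)}.ncard : ℕ) : ℝ) ≤
          (({p : ℕ | p.Prime ∧ p ≤ M}.ncard : ℕ) : ℝ) / (N : ℝ) ^ A) ∧
    (∀ ξ : ℝ, IsAlgebraic ℚ ξ → Irrational ξ →
      ∃ N₀ : ℕ, ∀ N : ℕ, N₀ ≤ N → ∃ p : ℕ, p.Prime ∧ (p : ℝ) ≤ Real.exp (ε * N) ∧
      ∀ b : ℕ, 2 ≤ b → b ≤ B → DiscrepancyUpTo b N ((N : ℝ) ^ (1 / 2 + δ)) (p * ξ)) := by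
  obtain ⟨h1, h2, h3⟩ := Pool.Agent.Run7.h566.DP.PolyR.result B ε δ hε hδ A
  exact ⟨h1, h2, h3, fun ξ halg hirr => (Pool.Agent.Run7.h566.DP.PrimeR.result ξ halg hirr B ε δ hε hδ).1 A,
    fun ξ halg hirr => (Pool.Agent.Run7.h566.DP.PrimeR.result ξ halg hirr B ε δ hε hδ).2⟩

end Pool.Agent.Results.MP_7e9a3a_nt.PolynomialAndPrimeValues
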