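import Pool.Agent.Run7.h274.RelWords

/-!
# Words in the rational multiples of `e` and `1 / e`, of `π` and `1 / π`, of `sin t` and `cos t`

Let `ξ_1, …, ξ_n` be real numbers (they may be transcendental) with `F(ξ_1, …, ξ_n) = 0` for an integer
polynomial `F` with `F(0) ≠ 0`, and let `p` be a prime which does not divide the base `b`. Then not all
of the numbers `ξ_i / s`, `s` a multiple of a high power of `p`, can have few places near which they
look like rational numbers with small denominators. At a place `k` at which `b ^ k x` has no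
approximation with a denominator less than `4 b ^ l`, the multiples `m x`, `m ≤ M`, show all words of
length `l`. So all words occur often, with a power of `N` as a lower bound, in the multiples
`m ξ_i / s` for one of the `i`.
-/

set_option autoImplicit false

namespace Pool.Agent.Results.MP_7e9a3a_nt.WordsOfRelatedNumbers

open Finset Filter

/-- the number of `k < N` such that the word of length `l` with value `W` (its digits are those of
`W < b ^ l` in base `b`, with leading zeros) stands in the expansion of `y` right behind the `k`-th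
digit, i.e. the fractional part of `b ^ k y` lies in `[W / b ^ l, (W + 1) / b ^ l)` -/
noncomputable def occ (b l W : ℕ) (y : ℝ) (N : ℕ) : ℕ :=
  #{k ∈ range N | ⌊(b : ℝ) ^ (k + l) * y⌋ % ((b : ℤ) ^ l) = (W : ℤ)}

/-- for some `c > 0` and infinitely many `N` every word `W` of length `l` occurs at least `c N ^ τ` times
among the first `N` digits of `y` -/
def Often (b l : ℕ) (y τ : ℝ) : Prop :=
  ∃ c : ℝ, 0 < c ∧ ∃ᶠ N : ℕ in atTop, ∀ W < b ^ l, c * (N : ℝ) ^ τ ≤ (occ b l W y N : ℝ)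

/-- Let `b ≥ 2`, let `p` be a prime which does not divide `b`, and let `F` be an integer polynomial in
finitely many variables with `F(0) ≠ 0`.

(1) Let `l ≥ 1`, `p ^ (e + 1)` not a divisor of `F(0)`, `p ^ (κ + 1)` not a divisor of
`(b - 1) (4 b ^ l)!` and `s` divisible by `p ^ (e + κ + 1)`. For every `K` there is `c > 0` such that for
all real numbers `ξ_i` with `|ξ_i| ≤ K` and `F(ξ) = 0`, all `M ≥ 4 (b + 1) b ^ l` and all `N` there are
`g_i` with `c N ≤ ∑ ∏ (g_i + 1) ^ α_i`, the sum over the exponents `α ≠ 0` of `F`, such that every word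
of length `l` occurs at least `g_i` times at the first `N` places of `m ξ_i / s` for at least
`M / (16 b ^ l)` of the `m ≤ M`.

(2) The same holds for all but `δ M` of the `m ≤ M` and all words of length `l` at once, if `s` is
divisible by a power of `p`, and `M` at least a bound, which depend on `F`, `b`, `l`, `δ`.

(3) If `F(ξ) = 0` and `F` has degree at most `D`, then one of the numbers `v = ξ_i` has the following
property: for every `l` there are `m` and `j` such that for infinitely many `N` all words of length `l`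
occur at least `c N ^ (1 / D)` times at the first `N` places of `m v / p ^ j`.

(4) For every real `u ≠ 0`, for instance `e` or `π`, one of the numbers `v = u` and `v = 1 / u` has the
property in (3) with `√N`.

(5) For every real `t` one of the numbers `v = sin t` and `v = cos t` has the property in (3) with
`√N`. -/
theorem result (b : ℕ) (hb : 2 ≤ b) (p : ℕ) (hp : p.Prime) (hpb : ¬ p ∣ b) :
    (∀ (σ : Type) [Fintype σ] [DecidableEq σ] (F : MvPolynomial σ ℤ) (l e κ : ℕ), 1 ≤ l →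
      ¬ (p : ℤ) ^ (e + 1) ∣ F.coeff 0 → ¬ p ^ (κ + 1) ∣ (b - 1) * (4 * b ^ l).factorial →
      ∀ s : ℕ, s ≠ 0 → p ^ (e + κ + 1) ∣ s → ∀ K : ℝ, ∃ c : ℝ, 0 < c ∧
        ∀ ξ : σ → ℝ, (∀ i, |ξ i| ≤ K) → MvPolynomial.aeval ξ F = 0 →
        ∀ M : ℕ, 4 * (b + 1) * b ^ l ≤ M → ∀ N : ℕ, ∃ g : σ → ℕ,
          c * N ≤ ∑ α ∈ F.support.erase 0, ∏ i, ((g i : ℝ) + 1) ^ α i ∧
          ∀ i, ∀ W < b ^ l, M ≤ 16 * b ^ l *
            ((Icc 1 M).filter (fun m : ℕ => g i ≤ occ b l W ((m : ℝ) * (ξ i / s)) N)).card) ∧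
    (∀ (σ : Type) [Fintype σ] [DecidableEq σ] (F : MvPolynomial σ ℤ) (l : ℕ) (δ : ℝ), 1 ≤ l →
      F.coeff 0 ≠ 0 → 0 < δ →
      ∃ j M₀ : ℕ, ∀ s : ℕ, s ≠ 0 → p ^ j ∣ s → ∀ K : ℝ, ∃ c : ℝ, 0 < c ∧
        ∀ ξ : σ → ℝ, (∀ i, |ξ i| ≤ K) → MvPolynomial.aeval ξ F = 0 →
        ∀ M : ℕ, M₀ ≤ M → ∀ N : ℕ, ∃ g : σ → ℕ,
          c * N ≤ ∑ α ∈ F.support.erase 0, ∏ i, ((g i : ℝ) + 1) ^ α i ∧
          ∀ i, (((Icc 1 M).filter (fun m : ℕ => ∃ W < b ^ l,
            occ b l W ((m : ℝ) * (ξ i / s)) N < g i)).card : ℝ) ≤ δ * M) ∧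
    (∀ (σ : Type) [Fintype σ] [DecidableEq σ] (F : MvPolynomial σ ℤ) (D : ℕ) (ξ : σ → ℝ),
      F.coeff 0 ≠ 0 → F.totalDegree ≤ D → MvPolynomial.aeval ξ F = 0 →
      ∃ i, ∀ l : ℕ, 1 ≤ l → ∃ m j : ℕ, 1 ≤ m ∧
        Often b l ((m : ℝ) * (ξ i / (p : ℝ) ^ j)) (1 / D)) ∧
    (∀ u : ℝ, u ≠ 0 → ∃ v : ℝ, (v = u ∨ v = 1 / u) ∧ ∀ l : ℕ, 1 ≤ l → ∃ m j : ℕ, 1 ≤ m ∧
      Often b l ((m : ℝ) * (v / (p : ℝ) ^ j)) (1 / 2)) ∧
    (∀ t : ℝ, ∃ v : ℝ, (v = Real.sin t ∨ v = Real.cos t) ∧ ∀ l : ℕ, 1 ≤ l → ∃ m j : ℕ, 1 ≤ m ∧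
      Often b l ((m : ℝ) * (v / (p : ℝ) ^ j)) (1 / 2)) := by
  have key : ∀ (σ : Type) [Fintype σ] [DecidableEq σ] (F : MvPolynomial σ ℤ) (D : ℕ) (ξ : σ → ℝ),
      F.coeff 0 ≠ 0 → F.totalDegree ≤ D → MvPolynomial.aeval ξ F = 0 →
      ∃ i, ∀ l : ℕ, 1 ≤ l → ∃ m j : ℕ, 1 ≤ m ∧
        Often b l ((m : ℝ) * (ξ i / (p : ℝ) ^ j)) (1 / D) := by
    intro σ _ _ F D ξ hF0 hD hξ
    obtain ⟨i, hi⟩ := Pool.Agent.Run7.h274.WM.rel_often hb hp hpb F hF0 ξ hξ hD
    exact ⟨i, hi⟩
  refine ⟨fun σ _ _ F l e κ hl hF0 hκ s hs hps K =>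
      Pool.Agent.Run7.h274.WM.rel_many hb hl hp hpb F hF0 hκ hs hps K,
    fun σ _ _ F l δ hl hF0 hδ => Pool.Agent.Run7.h274.WM.rel_most hb hl hp hpb F hF0 hδ, key,
    fun u hu => ?_, fun t => ?_⟩
  · obtain ⟨i, hi⟩ := key (Fin 2) (MvPolynomial.X 0 * MvPolynomial.X 1 - 1) 2 ![u, 1 / u] (by
      have h1 : (MvPolynomial.X 0 * MvPolynomial.X 1 - 1 : MvPolynomial (Fin 2) ℤ).coeff 0 = -1 := by
        rw [← MvPolynomial.constantCoeff_eq]
        simp
      rw [h1]; norm_num) (by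
      refine (MvPolynomial.totalDegree_sub _ _).trans (max_le ?_ ?_)
      · refine (MvPolynomial.totalDegree_mul _ _).trans ?_
        rw [MvPolynomial.totalDegree_X, MvPolynomial.totalDegree_X]
      · rw [MvPolynomial.totalDegree_one]; omega) (by
      rw [map_sub, map_mul, MvPolynomial.aeval_X, MvPolynomial.aeval_X, map_one]
      simp [hu])
    refine ⟨(![u, 1 / u] : Fin 2 → ℝ) i, ?_, by simpa using hi⟩
    fin_cases i
    · left; rfl
    · right; rfl
  · obtain ⟨i, hi⟩ := key (Fin 2) (MvPolynomial.X 0 ^ 2 + MvPolynomial.X 1 ^ 2 - 1) 2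
      ![Real.sin t, Real.cos t] (by
      have h1 : (MvPolynomial.X 0 ^ 2 + MvPolynomial.X 1 ^ 2 - 1 :
          MvPolynomial (Fin 2) ℤ).coeff 0 = -1 := by
        rw [← MvPolynomial.constantCoeff_eq]
        simp
      rw [h1]; norm_num) (by
      refine (MvPolynomial.totalDegree_sub _ _).trans (max_le ?_ ?_)
      · refine (MvPolynomial.totalDegree_add _ _).trans (max_le ?_ ?_)
        · refine (MvPolynomial.totalDegree_pow _ _).trans ?_
          rw [MvPolynomial.totalDegree_X]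
        · refine (MvPolynomial.totalDegree_pow _ _).trans ?_
          rw [MvPolynomial.totalDegree_X]
      · rw [MvPolynomial.totalDegree_one]; omega) (by
      rw [map_sub, map_add, map_pow, map_pow, MvPolynomial.aeval_X, MvPolynomial.aeval_X, map_one]
      simp)
    refine ⟨(![Real.sin t, Real.cos t] : Fin 2 → ℝ) i, ?_, by simpa using hi⟩
    fin_cases i
    · left; rfl
    · right; rfl

end Pool.Agent.Results.MP_7e9a3a_nt.WordsOfRelatedNumbers
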